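import Pool.Agent.W939.Ncr.Final

set_option autoImplicit false

/-!
# A completely NCR degree that is not below any r.e. degree

This answers Q1 of MP_2f7dfd_lc in the affirmative.

We construct a computable tree of tokens whose set of paths is countable and has exactly one
member `X` that is not computable; moreover `X` is of hyperimmune-free degree.  For a functional
that is total on `X` and has values in Cantor space, the images of the tokens at the expansionary
stages give computable clopen sets whose intersection is countable.  Hence a continuous measure of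
these clopen sets tends to zero, and every representation of the measure computes a Martin-Löf test
that captures the image of `X`.  So no real computable from `X` is random for a continuous
measure.  A real of hyperimmune-free degree that is below an r.e. set is computable, so `X` is not
below any r.e. set.
-/

namespace Pool.Agent.Results.MP_2f7dfd_lc.CompletelyNCR

open MeasureTheory
open scoped ENNReal

/-- The real `X` as a (total) function, for use as an oracle. -/
def pf (X : ℕ → Bool) : ℕ →. ℕ := fun n => Part.some (X n).toNat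

/-- The basic cylinder `[σ]`. -/
def cyl (σ : List Bool) : Set (ℕ → Bool) := {Z | ∀ i (h : i < σ.length), Z i = σ[i]}

/-- The real `R` represents `μ`: from `R` one can compute, for every string `σ` and every `p`, a
dyadic rational `a / 2^p` whose distance from `μ [σ]` is at most `2^(-p)`. -/
def Represents (R : ℕ → Bool) (μ : Measure (ℕ → Bool)) : Prop :=
  ∃ a : ℕ → ℕ, TuringReducible (fun n => Part.some (a n)) (pf R) ∧
    ∀ (σ : List Bool) (p : ℕ),
      |(μ (cyl σ)).toReal - (a (Encodable.encode (σ, p)) : ℝ) / 2 ^ p| ≤ 1 / 2 ^ p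

/-- `W` is a Martin-Löf test for `μ` relative to `R`: the sets `W n` of strings are r.e. in `R`
uniformly in `n` and the open set given by `W n` has measure at most `2^(-n)`. -/
def MLTest (R : ℕ → Bool) (μ : Measure (ℕ → Bool)) (W : ℕ → Set (List Bool)) : Prop :=
  (∃ f : ℕ →. ℕ, TuringReducible f (pf R) ∧
    ∀ n σ, σ ∈ W n ↔ (f (Encodable.encode (n, σ))).Dom) ∧
  ∀ n, μ {Z | ∃ σ ∈ W n, Z ∈ cyl σ} ≤ (2⁻¹ : ℝ≥0∞) ^ n

/-- `X` is Martin-Löf random for `μ` relative to `R`. -/
def MLRandom (R : ℕ → Bool) (μ : Measure (ℕ → Bool)) (X : ℕ → Bool) : Prop :=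
  ∀ W, MLTest R μ W → ∃ n, ∀ σ ∈ W n, X ∉ cyl σ

/-- `X` is in `NCR`: it is not `μ`-random for any continuous probability measure `μ`, where
`μ`-random means Martin-Löf random for `μ` relative to some representation of `μ`. -/
def NCR (X : ℕ → Bool) : Prop :=
  ∀ μ : Measure (ℕ → Bool), IsProbabilityMeasure μ → (∀ Z, μ {Z} = 0) →
    ¬ ∃ R, Represents R μ ∧ MLRandom R μ X

theorem result : ∃ X : ℕ → Bool,
    (∀ Y : ℕ → Bool, TuringReducible (pf Y) (pf X) → NCR Y) ∧
    ∀ A : ℕ → Bool, REPred (fun n => A n = true) → ¬ TuringReducible (pf X) (pf A) := by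
  obtain ⟨V, hV⟩ := Pool.Agent.W939.Ncr.exists_tower
  refine ⟨Pool.Agent.W939.Ncr.XX V, ?_, ?_⟩
  · rintro Y hY μ hμ1 hμ2 ⟨R, ⟨a, ha, hap⟩, hR⟩
    obtain ⟨W, h1, h2, h3⟩ := Pool.Agent.W939.Ncr.capture hV (Y := Y) hY hμ2
      (g := Pool.Agent.H84R6.o R) (a := a) ha hap
    obtain ⟨n, hn⟩ := hR W ⟨h1, h2⟩
    obtain ⟨σ, h4, h5⟩ := h3 n
    exact hn σ h4 h5
  · intro A hA h
    refine Pool.Agent.W939.Ncr.X_not_re hV hA (χ := Pool.Agent.H84R6.o A) ?_ ?_ h
    · intro n hn
      show (A n).toNat = 1
      rw [hn]
      rfl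
    · intro n hn
      show (A n).toNat = 0
      rw [Bool.not_eq_true] at hn
      rw [hn]
      rfl

end Pool.Agent.Results.MP_2f7dfd_lc.CompletelyNCR
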